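import Mathlib
import Pool.Agent.Helper722.FX.Defs

set_option autoImplicit false

namespace Pool.Agent.Helper722.FX

open Pool.Agent.Helper605.FT Pool.Agent.Helper732.FT2

/-- the chain used in the recursion, with free last sets `F k` -/
structure BG (n : ℕ) (F : ℕ → Finset ℕ) (c : ℕ → List (Finset ℕ)) : Prop where
  len : ∀ k, 3 ≤ k → k + 1 ≤ n → (c k).length + 1 = 2 * (n - 1).choose (k - 1)
  ok : ∀ k, 3 ≤ k → k + 1 ≤ n → Ok (c k)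
  card : ∀ k, 3 ≤ k → k + 1 ≤ n → ∀ a ∈ c k, a.card = k - 1 ∨ a.card = k
  sub : ∀ k, 3 ≤ k → k + 1 ≤ n → ∀ a ∈ c k, a ⊆ Finset.Icc 1 n
  head3 : (c 3).head? = some {1, 3, n - 1}
  head : ∀ k, 4 ≤ k → k + 1 ≤ n → (c k).head? = some ((sP (n - 1)).take k).toFinset
  last : ∀ k, 3 ≤ k → k + 1 ≤ n → (c k).getLast? = some (F k)
  Fcard : ∀ k, 3 ≤ k → k + 1 ≤ n → (F k).card = k
  Fsub : ∀ k, 3 ≤ k → k + 1 ≤ n → F k ⊆ T n (k + 1)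
  Fnest : F (n - 2) ⊆ F (n - 1)
  cross : ∀ k l, 3 ≤ k → k < l → l + 1 ≤ n → ∀ a ∈ c k, ∀ b ∈ c l, ¬ b ⊆ a
  inv : ∀ k, 3 ≤ k → k + 1 ≤ n → ∀ b ∈ c k, ¬ b ⊆ T n k
  H : ∀ b ∈ c 3, b.card = 2 → ¬ HU n b

/-- the next last sets -/
def nextF (n : ℕ) (F : ℕ → Finset ℕ) (k : ℕ) : Finset ℕ :=
  if k = 3 then {1, 3, n + 1} else insert (n + 1) (F (k - 1))

/-- the C side of the construction, with free last sets `F k` -/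
structure CSideF (n : ℕ) (S : List ℕ) (F : ℕ → Finset ℕ) (c : ℕ → List (Finset ℕ)) : Prop where
  c1 : c 1 = [(S.take 1).toFinset, ∅, {n - 2}]
  len2 : (c 2).length = 2 * (n - 1) - 1
  len3 : (c 3).length = 2 * (n - 1).choose 2 + 1
  len : ∀ k, 4 ≤ k → k + 1 ≤ n → (c k).length = 2 * (n - 1).choose (k - 1) - 1
  ok : ∀ k, 1 ≤ k → k + 1 ≤ n → Ok (c k)
  card : ∀ k, 1 ≤ k → k + 1 ≤ n → ∀ a ∈ c k, a.card = k - 1 ∨ a.card = k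
  sub : ∀ k, 1 ≤ k → k + 1 ≤ n → ∀ a ∈ c k, a ⊆ Finset.Icc 1 n
  head : ∀ k, 1 ≤ k → k + 1 ≤ n → (c k).head? = some (S.take k).toFinset
  last2 : (c 2).getLast? = some {n - 2, n}
  last : ∀ k, 3 ≤ k → k + 1 ≤ n → (c k).getLast? = some (F k)
  Fcard : ∀ k, 3 ≤ k → k + 1 ≤ n → (F k).card = k
  Fsub : ∀ k, 3 ≤ k → k + 1 ≤ n → F k ⊆ T n (k + 1)
  Fnest : F (n - 2) ⊆ F (n - 1)
  cross : ∀ k l, 1 ≤ k → k < l → l + 1 ≤ n → ∀ a ∈ c k, ∀ b ∈ c l, ¬ b ⊆ a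
  inv : ∀ k, 4 ≤ k → k + 1 ≤ n → ∀ b ∈ c k, ¬ b ⊆ T n k
  rev : Ok (c (n - 1)).reverse

end Pool.Agent.Helper722.FX
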