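import Mathlib
import Pool.Agent.Helper605.FT.A
import Pool.Agent.Helper732.FT2.Base
import Pool.Agent.Helper722.FX.Defs
import Pool.Agent.Helper722.FX.Step
import Pool.Agent.Helper722.FY.Defs2

set_option autoImplicit false

namespace Pool.Agent.Helper722.FX

open Pool.Agent.Helper605.FT Pool.Agent.Helper732.FT2

theorem BG_step (n : ℕ) (hn : 12 ≤ n) (F : ℕ → Finset ℕ) (c : ℕ → List (Finset ℕ)) (hc : BG n F c)
    (X Y : ℕ → List (Finset ℕ)) (hX : PVf (sX n) (eX n) X) (hX1 : X 1 = walk (sX n))
    (hX2 : (X 2).take 3 = [{3, 2, 1}, {3, 1}, {3, 1, n}])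
    (hY : PVf (sY n) (eY n) Y) (hY1 : Y 1 = walk (sY n))
    (hYT : ∀ j, 5 ≤ j → j ≤ n →
      ({1, 2, 3, n} ∪ Finset.Icc (n - j + 4) (n - 2) : Finset ℕ) ∈ Y (j - 2))
    (hL : LowP n ((X 2).drop 2) ((X 2).drop 2 ++ rest n)) (hP : PG n (sX n) (pg n X Y)) :
    BG (n + 1) (nextF n F) (nextB n X Y c) := by
  have hXs : ∀ k, ∀ a ∈ X k, ∀ y ∈ a, 1 ≤ y ∧ y ≤ n ∧ y ≠ n - 1 := fun k a ha y hy =>
    BFs_memsX hn (hX.sub k a ha hy)
  have hYs : ∀ k, ∀ a ∈ Y k, ∀ y ∈ a, 1 ≤ y ∧ y ≤ n ∧ y ≠ n - 1 := fun k a ha y hy =>
    BFs_memsY hn (hY.sub k a ha hy)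
  have hpn : ∀ k, 3 ≤ k → ∀ a ∈ pg n X Y k, n + 1 ∉ a := fun k hk a ha hm => by
    have := Finset.mem_Icc.mp (hP.sub k hk a ha hm)
    omega
  have hcn : ∀ k, 3 ≤ k → k + 1 ≤ n → ∀ a ∈ c k, n + 1 ∉ a := fun k hk hk' a ha hm => by
    have := Finset.mem_Icc.mp (hc.sub k hk hk' a ha hm)
    omega
  obtain ⟨L, hXL⟩ := BFs_X2 hX2
  have hdrop : (X 2).drop 2 = {3, 1, n} :: L := by
    rw [hXL]
    rfl
  have hfirst : ({3, 2, 1} : Finset ℕ) ∈ X 2 := by
    rw [hXL]
    exact List.mem_cons_self
  have hR : ∀ b ∈ (X 2).drop 2, ¬ b ⊆ {3, 2, 1} := by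
    have h1 := hX.ok 2
    rw [hXL] at h1
    rw [hdrop]
    exact h1.2.1
  have hRX : ∀ b ∈ (X 2).drop 2, b ∈ X 2 := fun b hb => List.mem_of_mem_drop hb
  constructor
  · -- len
    intro k hk hk'
    rcases Nat.lt_or_ge 3 k with h4 | h4
    · obtain ⟨j, rfl⟩ : ∃ j, k = j + 1 := ⟨k - 1, by omega⟩
      rw [BFs_succ n X Y c (by omega), List.length_append, List.length_map,
        hP.len j (by omega)]
      have h1 := hc.len j (by omega) (by omega)
      have h2 : (n + 1 - 1).choose (j + 1 - 1) = (n - 1).choose (j - 1) + (n - 1).choose j := by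
        obtain ⟨m, rfl⟩ : ∃ m, n = m + 1 := ⟨n - 1, by omega⟩
        obtain ⟨i, rfl⟩ : ∃ i, j = i + 1 := ⟨j - 1, by omega⟩
        simp only [Nat.add_sub_cancel]
        rw [Nat.choose_succ_succ]
      rw [h2]
      omega
    · obtain rfl : k = 3 := by omega
      rw [BFs_three, hL.len, List.length_drop, hX.len]
      have h1 : (sX n).length = n - 1 := by
        simp only [sX, List.length_cons, List.length_range']
        omega
      rw [h1]
      obtain ⟨m, rfl⟩ : ∃ m, n = m + 2 := ⟨n - 2, by omega⟩
      have h2 : (m + 2).choose 2 = m.choose 2 + 2 * m + 1 := by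
        rw [Nat.choose_succ_succ' (m + 1) 1, Nat.choose_succ_succ' m 1]
        simp only [Nat.choose_one_right]
        ring
      have h3 : 1 ≤ m.choose 2 := Nat.choose_pos (by omega)
      simp only [show m + 2 - 1 - 1 = m by omega, show m + 2 + 1 - 1 = m + 2 by omega,
        show 3 - 1 = 2 by omega]
      omega
  · -- ok
    intro k hk hk'
    rcases Nat.lt_or_ge 3 k with h4 | h4
    · obtain ⟨j, rfl⟩ : ∃ j, k = j + 1 := ⟨k - 1, by omega⟩
      rw [BFs_succ n X Y c (by omega)]
      refine (hP.ok j (by omega)).append_strong ((hc.ok j (by omega) (by omega)).ins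
        (hcn j (by omega) (by omega))) ?_ ?_
      · intro a ha b hb
        have hhead : (c j).head? = some ((((n - 1) :: eY n).take j).toFinset) := by
          rcases Nat.lt_or_ge 3 j with h5 | h5
          · rw [hc.head j (by omega) (by omega), BFs_junc hn (by omega) (by omega)]
          · obtain rfl : j = 3 := by omega
            rw [hc.head3, BFs_last3 hn]
        have hmem := List.mem_of_head? hhead
        rw [hP.last j (by omega) (by omega)] at ha
        rw [List.head?_map, hhead] at hb
        simp only [Option.mem_def, Option.some.injEq, Option.map_some] at ha hb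
        subst ha hb
        exact Or.inl ⟨n + 1, hcn j (by omega) (by omega) _ hmem, rfl⟩
      · intro a ha b hb hba
        rw [List.mem_map] at hb
        obtain ⟨d, hd, rfl⟩ := hb
        exact hpn _ (by omega) a ha (hba (Finset.mem_insert_self _ _))
    · obtain rfl : k = 3 := by omega
      rw [BFs_three]
      exact hL.ok
  · -- card
    intro k hk hk' a ha
    rcases Nat.lt_or_ge 3 k with h4 | h4
    · obtain ⟨j, rfl⟩ : ∃ j, k = j + 1 := ⟨k - 1, by omega⟩
      rcases BFs_mem (by omega) ha with ha | ⟨b, hb, rfl⟩
      · rcases hP.card j (by omega) a ha with h1 | h1 <;> omega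
      · rw [Finset.card_insert_of_notMem (hcn j (by omega) (by omega) b hb)]
        rcases hc.card j (by omega) (by omega) b hb with h1 | h1 <;> omega
    · obtain rfl : k = 3 := by omega
      rw [BFs_three] at ha
      exact hL.card a ha
  · -- sub
    intro k hk hk' a ha
    rcases Nat.lt_or_ge 3 k with h4 | h4
    · obtain ⟨j, rfl⟩ : ∃ j, k = j + 1 := ⟨k - 1, by omega⟩
      have hI : Finset.Icc 1 n ⊆ Finset.Icc 1 (n + 1) := Finset.Icc_subset_Icc_right (by omega)
      rcases BFs_mem (by omega) ha with ha | ⟨b, hb, rfl⟩
      · exact (hP.sub j (by omega) a ha).trans hI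
      · exact Finset.insert_subset (by rw [Finset.mem_Icc]; omega)
          ((hc.sub j (by omega) (by omega) b hb).trans hI)
    · obtain rfl : k = 3 := by omega
      rw [BFs_three] at ha
      exact hL.sub a ha
  · -- head3
    rw [BFs_three, hL.head, hdrop, List.head?_cons]
    congr 1
    ext y
    simp only [Finset.mem_insert, Finset.mem_singleton, Nat.add_sub_cancel]
    tauto
  · -- head
    intro k hk hk'
    obtain ⟨j, rfl⟩ : ∃ j, k = j + 1 := ⟨k - 1, by omega⟩
    rw [BFs_succ n X Y c (by omega), List.head?_append, hP.head j (by omega) (by omega),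
      BFs_sP hn, Nat.add_sub_cancel]
    rfl
  · -- last
    intro k hk hk'
    rcases Nat.lt_or_ge 3 k with h4 | h4
    · obtain ⟨j, rfl⟩ : ∃ j, k = j + 1 := ⟨k - 1, by omega⟩
      rw [BFs_succ n X Y c (by omega), List.getLast?_append, List.getLast?_map,
        hc.last j (by omega) (by omega)]
      simp only [Option.map_some, Option.some_or, Option.some.injEq]
      rw [nextF, if_neg (by omega), Nat.add_sub_cancel]
    · obtain rfl : k = 3 := by omega
      rw [BFs_three, hL.last]
      simp [nextF]
  · -- Fcard
    intro k hk hk'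
    rcases Nat.lt_or_ge 3 k with h4 | h4
    · rw [nextF, if_neg (by omega), Finset.card_insert_of_notMem, hc.Fcard (k - 1) (by omega) (by omega)]
      · omega
      · intro h
        have h1 := hc.last (k - 1) (by omega) (by omega)
        exact hcn (k - 1) (by omega) (by omega) _ (List.mem_of_getLast? h1) h
    · obtain rfl : k = 3 := by omega
      rw [nextF, if_pos rfl, Finset.card_insert_of_notMem, Finset.card_pair (by omega)]
      simp only [Finset.mem_insert, Finset.mem_singleton]
      omega
  · -- Fsub
    intro k hk hk'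
    rcases Nat.lt_or_ge 3 k with h4 | h4
    · rw [nextF, if_neg (by omega)]
      intro y hy
      rw [Finset.mem_insert] at hy
      rcases hy with rfl | hy
      · simp only [T, Finset.mem_union, Finset.mem_Icc]
        right; omega
      · have h1 := hc.Fsub (k - 1) (by omega) (by omega) hy
        simp only [T, Finset.mem_union, Finset.mem_insert, Finset.mem_singleton,
          Finset.mem_Icc] at h1 ⊢
        omega
    · obtain rfl : k = 3 := by omega
      rw [nextF, if_pos rfl]
      intro y hy
      simp only [T, Finset.mem_union, Finset.mem_insert, Finset.mem_singleton,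
          Finset.mem_Icc] at hy ⊢
      omega
  · -- Fnest
    rw [nextF, nextF, if_neg (by omega), if_neg (by omega)]
    have e1 : n + 1 - 2 - 1 = n - 2 := by omega
    have e2 : n + 1 - 1 - 1 = n - 1 := by omega
    rw [e1, e2]
    exact Finset.insert_subset_insert _ hc.Fnest
  · -- cross
    intro k l hk hkl hl a ha b hb hba
    obtain ⟨j, rfl⟩ : ∃ j, l = j + 1 := ⟨l - 1, by omega⟩
    rcases Nat.lt_or_ge 3 k with h4 | h4
    · obtain ⟨i, rfl⟩ : ∃ i, k = i + 1 := ⟨k - 1, by omega⟩
      rcases BFs_mem (by omega) ha with ha | ⟨a', ha', rfl⟩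
      · rcases BFs_mem (by omega) hb with hb | ⟨b', hb', rfl⟩
        · exact hP.cross i j (by omega) (by omega) a ha b hb hba
        · exact hpn _ (by omega) a ha (hba (Finset.mem_insert_self _ _))
      · rcases BFs_mem (by omega) hb with hb | ⟨b', hb', rfl⟩
        · have hba' : b ⊆ a' := BFs_sub_of_ins (hpn _ (by omega) b hb) hba
          have h1 := Finset.card_le_card hba'
          have h2 := hP.card j (by omega) b hb
          have h3 := hc.card i (by omega) (by omega) a' ha'
          omega
        · exact hc.cross i j (by omega) (by omega) (by omega) a' ha' b' hb'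
            (BFs_sub_of_ins_ins (hcn j (by omega) (by omega) b' hb') hba)
    · obtain rfl : k = 3 := by omega
      rw [BFs_three] at ha
      have hac := hL.card a ha
      have hle := Finset.card_le_card hba
      rcases BFs_mem (by omega) hb with hb | ⟨b', hb', rfl⟩
      · have hbc := hP.card j (by omega) b hb
        have hba2 : b = a := Finset.eq_of_subset_of_card_le hba (by omega)
        have hbn : n + 1 ∉ b := hpn j (by omega) b hb
        rcases hL.mem3 a ha (by omega) with ha' | ⟨p, hp, hp2, hp3, rfl⟩ | ⟨b0, hb0, hb02, rfl⟩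
        · have ha2 := hRX a ha'
          rcases BFs_mempg hb with hb1 | ⟨y, hy, rfl⟩
          · exact hX.cross 2 j (by omega) a ha2 b hb1 hba
          · exact (hXs 2 a ha2 (n - 1) (hba (Finset.mem_insert_self _ _))).2.2 rfl
        · rw [hba2] at hbn
          exact hbn (Finset.mem_insert_self _ _)
        · rcases BFs_mempg hb with hb1 | ⟨y, hy, rfl⟩
          · rw [hba2] at hb1
            exact (hXs j _ hb1 (n - 1) (Finset.mem_insert_self _ _)).2.2 rfl
          · have hyn : n - 1 ∉ y := fun h => (hYs _ y hy (n - 1) h).2.2 rfl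
            rw [← hY1] at hb0
            exact hY.cross 1 (j - 1) (by omega) b0 hb0 y hy (BFs_sub_of_ins_ins hyn hba)
      · have hbn := hcn j (by omega) (by omega) b' hb'
        rw [Finset.card_insert_of_notMem hbn] at hle
        have hbc := hc.card j (by omega) (by omega) b' hb'
        have hn1 : n + 1 ∈ a := hba (Finset.mem_insert_self _ _)
        rcases hL.mem3 a ha (by omega) with ha' | ⟨p, hp, hp2, hp3, rfl⟩ | ⟨b0, hb0, hb02, rfl⟩
        · have := (hXs 2 a (hRX a ha') (n + 1) hn1).2.1
          omega
        · have h5 : b' ⊆ p := BFs_sub_of_ins_ins hbn hba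
          have h6 := Finset.card_le_card h5
          have h7 : b' = p := Finset.eq_of_subset_of_card_le h5 (by omega)
          have h8 : j = 3 := by omega
          subst h8
          exact hc.H b' hb' (by rw [h7, hp2]) (h7 ▸ hp)
        · rw [← hY1] at hb0
          rcases Finset.mem_insert.1 hn1 with h5 | h5
          · omega
          · have := (hYs 1 b0 hb0 (n + 1) h5).2.1
            omega
  · -- inv
    intro k hk hk' b hb hbT
    rcases Nat.lt_or_ge 3 k with h4 | h4
    · obtain ⟨j, rfl⟩ : ∃ j, k = j + 1 := ⟨k - 1, by omega⟩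
      have hTT : T (n + 1) (j + 1) = insert (n + 1) (T n j) := by
        ext y
        simp only [T, Finset.mem_insert, Finset.mem_union, Finset.mem_singleton, Finset.mem_Icc]
        omega
      rw [hTT] at hbT
      rcases BFs_mem (by omega) hb with hb | ⟨b', hb', rfl⟩
      · have hbT' : b ⊆ T n j := BFs_sub_of_ins (hpn j (by omega) b hb) hbT
        have h3 : j = 3 ∨ j = 4 ∨ 5 ≤ j := by omega
        rcases h3 with rfl | rfl | h5
        · rcases BFs_mempg hb with hb1 | ⟨y, hy, rfl⟩
          · refine hX.cross 2 3 (by omega) _ hfirst b hb1 (fun y hy => ?_)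
            have := hbT' hy
            simp only [T, Finset.mem_insert, Finset.mem_union, Finset.mem_singleton,
              Finset.mem_Icc] at this ⊢
            omega
          · have := hbT' (Finset.mem_insert_self _ _)
            simp only [T, Finset.mem_insert, Finset.mem_union, Finset.mem_singleton,
              Finset.mem_Icc] at this
            omega
        · rcases BFs_mempg hb with hb1 | ⟨y, hy, rfl⟩
          · have h6 := hX.head 3 (by
              simp only [sX, List.length_cons, List.length_range']
              omega)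
            refine hX.cross 3 4 (by omega) _ (List.mem_of_head? h6) b hb1 (fun y hy => ?_)
            have := hbT' hy
            simp only [T, Finset.mem_insert, Finset.mem_union, Finset.mem_singleton,
              Finset.mem_Icc, sX, List.take_succ_cons, List.take_zero, List.mem_toFinset,
              List.mem_cons, List.not_mem_nil, or_false] at this ⊢
            omega
          · have := hbT' (Finset.mem_insert_self _ _)
            simp only [T, Finset.mem_insert, Finset.mem_union, Finset.mem_singleton,
              Finset.mem_Icc] at this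
            omega
        · have hZ := hYT j h5 (by omega)
          rcases BFs_mempg hb with hb1 | ⟨y, hy, rfl⟩
          · have h6 : b ⊆ ({1, 2, 3, n} ∪ Finset.Icc (n - j + 4) (n - 2) : Finset ℕ) := by
              intro y hy
              have h7 := hbT' hy
              have h8 := (hXs j b hb1 y hy).2.2
              simp only [T, Finset.mem_insert, Finset.mem_union, Finset.mem_singleton,
                Finset.mem_Icc] at h7 ⊢
              omega
            have h7 := Finset.card_le_card h6
            have h8 := Finset.card_union_le ({1, 2, 3, n} : Finset ℕ)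
              (Finset.Icc (n - j + 4) (n - 2))
            have h9 : ({1, 2, 3, n} : Finset ℕ).card ≤ 4 := Finset.card_le_four
            rw [Nat.card_Icc] at h8
            have h10 := hX.card j b hb1
            omega
          · have hyn : n - 1 ∉ y := fun h => (hYs _ y hy (n - 1) h).2.2 rfl
            refine hY.cross (j - 2) (j - 1) (by omega) _ hZ y hy (fun z hz => ?_)
            have h7 := hbT' (Finset.mem_insert_of_mem hz)
            have h8 : z ≠ n - 1 := fun h => hyn (h ▸ hz)
            simp only [T, Finset.mem_insert, Finset.mem_union, Finset.mem_singleton,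
              Finset.mem_Icc] at h7 ⊢
            omega
      · exact hc.inv j (by omega) (by omega) b' hb'
          (BFs_sub_of_ins_ins (hcn j (by omega) (by omega) b' hb') hbT)
    · obtain rfl : k = 3 := by omega
      rw [BFs_three] at hb
      have hT3 : ∀ y ∈ b, y = 3 ∨ y = 2 ∨ y = 1 := by
        intro y hy
        have h7 := hbT hy
        simp only [T, Finset.mem_insert, Finset.mem_union, Finset.mem_singleton,
          Finset.mem_Icc] at h7
        omega
      have hsub : b ⊆ {3, 2, 1} := by
        intro y hy
        have := hT3 y hy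
        simp only [Finset.mem_insert, Finset.mem_singleton]
        exact this
      rcases hL.card b hb with h2 | h2
      · rcases hL.mem2 b hb h2 with h3 | h3 | h3
        · exact hR b h3 hsub
        · have := hT3 _ h3.1
          omega
        · have := hT3 _ h3.1
          omega
      · rcases hL.mem3 b hb h2 with h3 | ⟨p, hp, hp2, hp3, rfl⟩ | ⟨b0, hb0, hb02, rfl⟩
        · exact hR b h3 hsub
        · have := hT3 _ (Finset.mem_insert_self _ _)
          omega
        · have := hT3 _ (Finset.mem_insert_self _ _)
          omega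
  · -- H
    intro b hb hb2 hHU
    rw [BFs_three] at hb
    rcases hL.mem2 b hb hb2 with h3 | h3 | h3
    · have h4 := hRX b h3
      rcases BFs_HU hn hHU with h5 | h5 | h5 | h5
      · apply hR b h3
        rw [h5]
        intro y hy
        simp only [Finset.mem_insert, Finset.mem_singleton] at hy ⊢
        omega
      · have := (hXs 2 b h4 _ h5.2).2.1
        omega
      · have := (hXs 2 b h4 _ h5.1).2.1
        omega
      · have h6 := h5.1
        rw [← hX1] at h6
        exact hX.cross 1 2 (by omega) b h6 b h4 (Finset.Subset.refl _)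
    · rcases BFs_HU hn hHU with h5 | h5 | h5 | h5
      · have := h3.1
        rw [h5, Finset.mem_insert, Finset.mem_singleton] at this
        omega
      · exact h3.2 h5.2
      · exact h3.2 h5.1
      · exact (BFs_memsX hn (h5.2 h3.1)).2.2 rfl
    · rcases BFs_HU hn hHU with h5 | h5 | h5 | h5
      · have := h3.1
        rw [h5, Finset.mem_insert, Finset.mem_singleton] at this
        omega
      · exact h3.2.1 h5.1
      · exact h3.2.2 h5.2
      · have := (BFs_memsX hn (h5.2 h3.1)).2.1
        omega


end Pool.Agent.Helper722.FX
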