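import Mathlib
import Pool.Agent.Helper605.FT.A
import Pool.Agent.Helper732.FT2.Base
import Pool.Agent.Helper722.FX.Defs
import Pool.Agent.Helper722.FX.Rev
import Pool.Agent.Helper722.FX.Top
import Pool.Agent.Helper722.FY.Defs2

set_option autoImplicit false

namespace Pool.Agent.Helper722.FX

open Pool.Agent.Helper605.FT Pool.Agent.Helper732.FT2

theorem top_stepF (m : ℕ) (hm : 12 ≤ m) (F : ℕ → Finset ℕ) (c : ℕ → List (Finset ℕ)) (hc : BG m F c)
    (σ : List ℕ) (hσ : (σ ++ [2, 3, m - 2]).Perm (sX m)) (hσ0 : σ ≠ [])
    (X Y : ℕ → List (Finset ℕ)) (hX : PVf (σ ++ [2, 3, m - 2]) (eX m) X)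
    (hX1 : X 1 = walk (σ ++ [2, 3, m - 2]))
    (hXt : ({1, 2, 3} : Finset ℕ) ∈ X 2) (hXt' : ({1, 2, 3, m} : Finset ℕ) ∈ X 3)
    (hY : PVf (sY m) (eY m) Y) (hY1 : Y 1 = walk (sY m))
    (hYT : ∀ j, 5 ≤ j → j ≤ m →
      ({1, 2, 3, m} ∪ Finset.Icc (m - j + 4) (m - 2) : Finset ℕ) ∈ Y (j - 2))
    (hL : LowP m (X 2) (X 2 ++ rest m)) (hP : PG m (σ ++ [2, 3, m - 2]) (pg m X Y)) :
    CSideF (m + 1) (σ ++ [2, 3, m - 2, m - 1, m + 1]) (nextF m F)
      (topC m (σ ++ [2, 3, m - 2]) X Y c) := by
  obtain ⟨s, hs⟩ : ∃ s : List ℕ, s = σ ++ [2, 3, m - 2] := ⟨_, rfl⟩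
  have hS : σ ++ [2, 3, m - 2, m - 1, m + 1] = (s ++ [m - 1]) ++ [m + 1] := by rw [hs]; simp
  rw [hS]
  rw [← hs] at hσ hX hX1 hP ⊢
  have hslen : s.length = m - 1 := by rw [hσ.length_eq, ts_len_sX hm]
  have hmem : ∀ x, x ∈ s ↔ (1 ≤ x ∧ x ≤ m ∧ x ≠ m - 1) := fun x => (hσ.mem_iff).trans (ts_mem_sX hm x)
  obtain ⟨s0, s', hss⟩ : ∃ s0 s', s = s0 :: s' := by
    cases hse : s with
    | nil => rw [hse] at hslen; simp at hslen; omega
    | cons a b => exact ⟨a, b, rfl⟩
  have hs0 : s0 ∈ s := by rw [hss]; simp
  have hs0' := (hmem s0).mp hs0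
  have hXs : ∀ k, ∀ a ∈ X k, ∀ x ∈ a, 1 ≤ x ∧ x ≤ m ∧ x ≠ m - 1 := by
    intro k a ha x hx
    exact (hmem x).mp (List.mem_toFinset.mp (hX.sub k a ha hx))
  have hYs : ∀ k, ∀ a ∈ Y k, ∀ x ∈ a, 1 ≤ x ∧ x ≤ m ∧ x ≠ m - 1 := by
    intro k a ha x hx
    exact (ts_mem_sY hm x).mp (List.mem_toFinset.mp (hY.sub k a ha hx))
  have hPs : ∀ k, 3 ≤ k → ∀ a ∈ pg m X Y k, m + 1 ∉ a := by
    intro k hk a ha h
    have := Finset.mem_Icc.mp (hP.sub k hk a ha h)
    omega
  have hcs : ∀ k, 3 ≤ k → k + 1 ≤ m → ∀ a ∈ c k, m + 1 ∉ a := by
    intro k hk hkm a ha h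
    have := Finset.mem_Icc.mp (hc.sub k hk hkm a ha h)
    omega
  have hC1 : topC m s X Y c 1 = [(s.take 1).toFinset, ∅, {m - 1}] := by simp [topC]
  have hC2 : topC m s X Y c 2 = X 1 ++ [{m - 2, m + 1}, {m + 1}, {m - 1, m + 1}] := by simp [topC]
  have hC3 : topC m s X Y c 3 = X 2 ++ rest m := by simp [topC]
  have hCk : ∀ k, 4 ≤ k → topC m s X Y c k = pg m X Y (k - 1) ++ (c (k - 1)).map (insert (m + 1)) := by
    intro k hk
    unfold topC
    rw [if_neg (by omega), if_neg (by omega), if_neg (by omega)]
  have htake1 : (s.take 1).toFinset = {s0} := by rw [hss]; simp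
  have hcases : ∀ k, 1 ≤ k → k = 1 ∨ k = 2 ∨ k = 3 ∨ 4 ≤ k := by intro k hk; omega
  have hcard : ∀ k, 1 ≤ k → k + 1 ≤ m + 1 → ∀ a ∈ topC m s X Y c k, a.card = k - 1 ∨ a.card = k := by
    intro k hk1 hkm a ha
    rcases hcases k hk1 with rfl | rfl | rfl | hk
    · rw [hC1, htake1] at ha
      simp only [List.mem_cons, List.not_mem_nil, or_false] at ha
      rcases ha with rfl | rfl | rfl <;> simp
    · rw [hC2, List.mem_append] at ha
      rcases ha with ha | ha
      · exact hX.card 1 a ha
      · simp only [List.mem_cons, List.not_mem_nil, or_false] at ha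
        rcases ha with rfl | rfl | rfl
        · right; exact Finset.card_pair (by omega)
        · left; simp
        · right; exact Finset.card_pair (by omega)
    · rw [hC3] at ha; exact hL.card a ha
    · rw [hCk k hk, List.mem_append] at ha
      rcases ha with ha | ha
      · have := hP.card (k - 1) (by omega) a ha; omega
      · obtain ⟨b, hb, rfl⟩ := List.mem_map.mp ha
        have h1 := hc.card (k - 1) (by omega) (by omega) b hb
        rw [Finset.card_insert_of_notMem (hcs (k - 1) (by omega) (by omega) b hb)]
        omega
  have hok : ∀ k, 1 ≤ k → k + 1 ≤ m + 1 → Ok (topC m s X Y c k) := by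
    intro k hk1 hkm
    rcases hcases k hk1 with rfl | rfl | rfl | hk
    · rw [hC1, htake1]
      refine ⟨Or.inr ⟨s0, by simp, by simp⟩, ?_, Or.inl ⟨m - 1, by simp, by simp⟩, ?_, trivial⟩
      · intro b hb hsub
        simp only [List.mem_cons, List.not_mem_nil, or_false] at hb
        subst hb
        have := hsub (Finset.mem_singleton_self _)
        have := Finset.mem_singleton.mp this
        omega
      · intro b hb; simp at hb
    · rw [hC2]
      apply Ok.append_strong (hX.ok 1)
      · refine ⟨Or.inr ⟨m - 2, ?_, rfl⟩, ?_, Or.inl ⟨m - 1, ?_, rfl⟩, ?_, trivial⟩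
        · simp only [Finset.mem_singleton]; omega
        · intro b hb hsub
          simp only [List.mem_cons, List.not_mem_nil, or_false] at hb
          subst hb
          have := hsub (Finset.mem_insert_self _ _)
          simp only [Finset.mem_insert, Finset.mem_singleton] at this
          omega
        · simp only [Finset.mem_singleton]; omega
        · intro b hb; simp at hb
      · intro a ha b hb
        have h1 := hX.last 1 (by omega)
        rw [h1] at ha
        have ha' : a = {m - 2} := by
          simp only [Option.mem_def, Option.some.injEq] at ha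
          rw [← ha]; simp [eX]
        have hb' : b = {m - 2, m + 1} := by simpa using hb.symm
        rw [ha', hb', Finset.pair_comm]
        exact ts_adj_insert (by simp only [Finset.mem_singleton]; omega)
      · intro x hx y hy hsub
        have hmy : m + 1 ∈ y := by
          simp only [List.mem_cons, List.not_mem_nil, or_false] at hy
          rcases hy with rfl | rfl | rfl <;> simp
        have := hXs 1 x hx (m + 1) (hsub hmy)
        omega
    · rw [hC3]; exact hL.ok
    · rw [hCk k hk]
      apply Ok.append_strong (hP.ok (k - 1) (by omega))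
        (Ok.ins (hcs (k - 1) (by omega) (by omega)) (hc.ok (k - 1) (by omega) (by omega)))
      · intro a ha b hb
        rw [hP.last (k - 1) (by omega) (by omega)] at ha
        have ha' : a = (((m - 1) :: eY m).take (k - 1)).toFinset := by
          simp only [Option.mem_def, Option.some.injEq] at ha
          exact ha.symm
        have hhead : (c (k - 1)).head? = some a := by
          rcases Nat.lt_or_ge (k - 1) 4 with h4 | h4
          · have hk3 : k - 1 = 3 := by omega
            rw [ha', hk3, hc.head3]
            congr 1
            ext x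
            simp only [eY, List.take_succ_cons, List.take_zero, List.mem_toFinset, List.mem_cons,
              List.not_mem_nil, or_false, Finset.mem_insert, Finset.mem_singleton]
            tauto
          · rw [hc.head (k - 1) h4 (by omega), ha', ts_pref hm h4 (by omega)]
        have hb' : b = insert (m + 1) a := by
          rw [List.head?_map, hhead] at hb
          simp only [Option.map_some, Option.mem_def, Option.some.injEq] at hb
          exact hb.symm
        rw [hb']
        apply ts_adj_insert
        have hac : a ∈ c (k - 1) := List.mem_of_mem_head? (by rw [hhead]; rfl)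
        exact hcs (k - 1) (by omega) (by omega) a hac
      · intro x hx y hy hsub
        obtain ⟨b, hb, rfl⟩ := List.mem_map.mp hy
        exact hPs (k - 1) (by omega) x hx (hsub (Finset.mem_insert_self _ _))
  have hsub : ∀ k, 1 ≤ k → k + 1 ≤ m + 1 → ∀ a ∈ topC m s X Y c k, a ⊆ Finset.Icc 1 (m + 1) := by
    intro k hk1 hkm a ha x hx
    rw [Finset.mem_Icc]
    rcases hcases k hk1 with rfl | rfl | rfl | hk
    · rw [hC1, htake1] at ha
      simp only [List.mem_cons, List.not_mem_nil, or_false] at ha
      rcases ha with rfl | rfl | rfl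
      · have := Finset.mem_singleton.mp hx; omega
      · simp at hx
      · have := Finset.mem_singleton.mp hx; omega
    · rw [hC2, List.mem_append] at ha
      rcases ha with ha | ha
      · have := hXs 1 a ha x hx; omega
      · simp only [List.mem_cons, List.not_mem_nil, or_false] at ha
        rcases ha with rfl | rfl | rfl <;>
          simp only [Finset.mem_insert, Finset.mem_singleton] at hx <;> omega
    · rw [hC3] at ha
      exact Finset.mem_Icc.mp (hL.sub a ha hx)
    · rw [hCk k hk, List.mem_append] at ha
      rcases ha with ha | ha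
      · have := Finset.mem_Icc.mp (hP.sub (k - 1) (by omega) a ha hx); omega
      · obtain ⟨b, hb, rfl⟩ := List.mem_map.mp ha
        rcases Finset.mem_insert.mp hx with h1 | h1
        · omega
        · have := Finset.mem_Icc.mp (hc.sub (k - 1) (by omega) (by omega) b hb h1); omega
  have hhead : ∀ k, 1 ≤ k → k + 1 ≤ m + 1 → (topC m s X Y c k).head? =
      some (((s ++ [m - 1]) ++ [m + 1]).take k).toFinset := by
    intro k hk1 hkm
    have htk : ((s ++ [m - 1]) ++ [m + 1]).take k = (s ++ [m - 1]).take k := by
      apply List.take_append_of_le_length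
      simp only [List.length_append, List.length_cons, List.length_nil, hslen]; omega
    have htk' : k ≤ 3 → (s ++ [m - 1]).take k = s.take k := by
      intro hk
      apply List.take_append_of_le_length
      omega
    rw [htk]
    rcases hcases k hk1 with rfl | rfl | rfl | hk
    · rw [hC1, htk' (by omega)]; rfl
    · rw [hC2, htk' (by omega), List.head?_append, hX.head 1 (by omega)]; rfl
    · rw [hC3, htk' (by omega), hL.head, hX.head 2 (by omega)]
    · rw [hCk k hk, List.head?_append, hP.head (k - 1) (by omega) (by omega)]
      have : k - 1 + 1 = k := by omega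
      rw [this]; rfl
  have hlast : ∀ k, 3 ≤ k → k + 1 ≤ m + 1 → (topC m s X Y c k).getLast? = some (nextF m F k) := by
    intro k hk1 hkm
    rcases Nat.lt_or_ge k 4 with h4 | hk
    · have hk3 : k = 3 := by omega
      subst hk3
      rw [hC3, hL.last]
      rfl
    · rw [hCk k hk, List.getLast?_append, List.getLast?_map, hc.last (k - 1) (by omega) (by omega),
        nextF, if_neg (by omega)]
      rfl
  have hFcard : ∀ k, 3 ≤ k → k + 1 ≤ m + 1 → (nextF m F k).card = k := by
    intro k hk hk'
    rcases Nat.lt_or_ge 3 k with h4 | h4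
    · rw [nextF, if_neg (by omega), Finset.card_insert_of_notMem, hc.Fcard (k - 1) (by omega) (by omega)]
      · omega
      · intro h
        have h1 := hc.last (k - 1) (by omega) (by omega)
        have := Finset.mem_Icc.mp (hc.sub (k - 1) (by omega) (by omega) _ (List.mem_of_getLast? h1) h)
        omega
    · obtain rfl : k = 3 := by omega
      rw [nextF, if_pos rfl, Finset.card_insert_of_notMem, Finset.card_pair (by omega)]
      simp only [Finset.mem_insert, Finset.mem_singleton]
      omega
  have hFsub : ∀ k, 3 ≤ k → k + 1 ≤ m + 1 → nextF m F k ⊆ T (m + 1) (k + 1) := by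
    intro k hk hk'
    rcases Nat.lt_or_ge 3 k with h4 | h4
    · rw [nextF, if_neg (by omega)]
      intro y hy
      rw [Finset.mem_insert] at hy
      rcases hy with rfl | hy
      · simp only [T, Finset.mem_union, Finset.mem_Icc]
        right; omega
      · have h1 := hc.Fsub (k - 1) (by omega) (by omega) hy
        simp only [T, Finset.mem_union, Finset.mem_insert, Finset.mem_singleton,
          Finset.mem_Icc] at h1 ⊢
        omega
    · obtain rfl : k = 3 := by omega
      rw [nextF, if_pos rfl]
      intro y hy
      simp only [T, Finset.mem_union, Finset.mem_insert, Finset.mem_singleton,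
          Finset.mem_Icc] at hy ⊢
      omega
  have hFnest : nextF m F (m + 1 - 2) ⊆ nextF m F (m + 1 - 1) := by
    rw [nextF, nextF, if_neg (by omega), if_neg (by omega)]
    have e1 : m + 1 - 2 - 1 = m - 2 := by omega
    have e2 : m + 1 - 1 - 1 = m - 1 := by omega
    rw [e1, e2]
    exact Finset.insert_subset_insert _ hc.Fnest
  have hcross : ∀ k l, 1 ≤ k → k < l → l + 1 ≤ m + 1 → ∀ a ∈ topC m s X Y c k,
      ∀ b ∈ topC m s X Y c l, ¬ b ⊆ a := by
    intro k l hk1 hkl hlm a ha b hb hba
    have hcb := hcard l (by omega) hlm b hb
    have hca := hcard k hk1 (by omega) a ha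
    have hle := Finset.card_le_card hba
    rcases hcases k hk1 with rfl | rfl | rfl | hk
    · -- k = 1
      have hl2 : l = 2 := by omega
      subst hl2
      have hab : b = a := Finset.eq_of_subset_of_card_le hba (by omega)
      have hc1 : b.card = 1 := by omega
      rw [hC1, htake1] at ha
      rw [hC2, List.mem_append] at hb
      simp only [List.mem_cons, List.not_mem_nil, or_false] at ha hb
      rcases hb with hb | hb
      · rcases ha with ha | ha | ha
        · rw [hX1] at hb
          obtain ⟨x, hx, hbx⟩ := ts_walk_sing s b hb hc1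
          rw [hab, ha] at hbx
          have hx0 : s0 = x := Finset.singleton_injective hbx
          have hnd := hX.nd
          rw [hss] at hnd hx
          simp only [List.tail_cons] at hx
          exact (List.nodup_cons.mp hnd).1 (hx0 ▸ hx)
        · rw [hab, ha] at hc1; simp at hc1
        · have hm1 : m - 1 ∈ b := by rw [hab, ha]; simp
          have := hXs 1 b hb _ hm1
          omega
      · have hmb : m + 1 ∈ b := by rcases hb with rfl | rfl | rfl <;> simp
        rw [hab] at hmb
        rcases ha with rfl | rfl | rfl
        · have := Finset.mem_singleton.mp hmb; omega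
        · simp at hmb
        · have := Finset.mem_singleton.mp hmb; omega
    · -- k = 2
      have hl3 : l = 3 := by omega
      subst hl3
      have hab : b = a := Finset.eq_of_subset_of_card_le hba (by omega)
      have hc2 : b.card = 2 := by omega
      rw [hC3] at hb
      rw [hC2, List.mem_append] at ha
      rcases ha with ha | ha
      · rcases hL.mem2 b hb hc2 with h1 | h1 | h1
        · exact hX.cross 1 2 (by omega) a ha b h1 hba
        · rw [hab] at h1
          have := hXs 1 a ha _ h1.1; omega
        · rw [hab] at h1
          have := hXs 1 a ha _ h1.1; omega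
      · simp only [List.mem_cons, List.not_mem_nil, or_false] at ha
        have hmb : m + 1 ∈ b := by rw [hab]; rcases ha with rfl | rfl | rfl <;> simp
        have h0 := hL.mem2 b hb hc2
        rcases ha with ha | ha | ha
        · rcases h0 with h1 | h1 | h1
          · have := hXs 2 b h1 _ hmb; omega
          · exact h1.2 hmb
          · apply h1.2.2; rw [hab, ha]; simp
        · rw [hab, ha] at hc2; simp at hc2
        · rcases h0 with h1 | h1 | h1
          · have := hXs 2 b h1 _ hmb; omega
          · exact h1.2 hmb
          · apply h1.2.1; rw [hab, ha]; simp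
    · -- k = 3
      have hl4 : l = 4 := by omega
      subst hl4
      have hab : b = a := Finset.eq_of_subset_of_card_le hba (by omega)
      have hc3 : a.card = 3 := by rw [hab] at hcb; omega
      rw [hC3] at ha
      rw [hCk 4 (by omega), List.mem_append] at hb
      have e3 : 4 - 1 = 3 := rfl
      rw [e3] at hb
      rcases hL.mem3 a ha hc3 with h1 | ⟨p, hp, hpc, hps, hpa⟩ | ⟨b0, hb0, hb0c, hb0a⟩
      · rcases hb with hb | hb
        · rw [pg, List.mem_append] at hb
          rcases hb with hb | hb
          · exact hX.cross 2 3 (by omega) a h1 b hb hba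
          · obtain ⟨q, hq, rfl⟩ := List.mem_map.mp hb
            have : m - 1 ∈ a := hba (Finset.mem_insert_self _ _)
            have := hXs 2 a h1 _ this; omega
        · obtain ⟨q, hq, rfl⟩ := List.mem_map.mp hb
          have : m + 1 ∈ a := hba (Finset.mem_insert_self _ _)
          have := hXs 2 a h1 _ this; omega
      · have hma : m + 1 ∈ a := by rw [hpa]; exact Finset.mem_insert_self _ _
        rcases hb with hb | hb
        · exact hPs 3 (by omega) b hb (by rw [hab]; exact hma)
        · obtain ⟨q, hq, rfl⟩ := List.mem_map.mp hb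
          have hqm : m + 1 ∉ q := hcs 3 (by omega) (by omega) q hq
          have hpm : m + 1 ∉ p := by
            intro h; have := Finset.mem_Icc.mp (hps h); omega
          have hqp : q = p := by
            apply Finset.Subset.antisymm
            · apply ts_sub_of_insert hqm; rw [← hpa]; exact hba
            · apply ts_sub_of_insert hpm; rw [← hpa, hab]
          rw [hqp] at hq
          exact hc.H p hq hpc hp
      · have hb0' : ∀ x ∈ b0, 1 ≤ x ∧ x ≤ m ∧ x ≠ m - 1 := by
          rw [← hY1] at hb0; exact hYs 1 b0 hb0
        have hb0m : m - 1 ∉ b0 := fun h => (hb0' _ h).2.2 rfl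
        have hma : m - 1 ∈ a := by rw [hb0a]; exact Finset.mem_insert_self _ _
        rcases hb with hb | hb
        · rw [pg, List.mem_append] at hb
          rcases hb with hb | hb
          · have := hXs 3 b hb (m - 1) (by rw [hab]; exact hma); omega
          · obtain ⟨q, hq, rfl⟩ := List.mem_map.mp hb
            have hqm : m - 1 ∉ q := fun h => (hYs _ q hq _ h).2.2 rfl
            have hqb : q ⊆ b0 := by
              apply ts_sub_of_insert hqm; rw [← hb0a]; exact hba
            rw [← hY1] at hb0
            exact hY.cross 1 2 (by omega) b0 hb0 q hq hqb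
        · obtain ⟨q, hq, rfl⟩ := List.mem_map.mp hb
          have h1 : m + 1 ∈ a := hba (Finset.mem_insert_self _ _)
          rw [hb0a] at h1
          rcases Finset.mem_insert.mp h1 with h2 | h2
          · omega
          · have := hb0' _ h2; omega
    · -- k ≥ 4
      rw [hCk k hk, List.mem_append] at ha
      rw [hCk l (by omega), List.mem_append] at hb
      rcases ha with ha | ha
      · rcases hb with hb | hb
        · exact hP.cross (k - 1) (l - 1) (by omega) (by omega) a ha b hb hba
        · obtain ⟨q, hq, rfl⟩ := List.mem_map.mp hb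
          exact hPs (k - 1) (by omega) a ha (hba (Finset.mem_insert_self _ _))
      · obtain ⟨p, hp, rfl⟩ := List.mem_map.mp ha
        rcases hb with hb | hb
        · have h1 : b ⊆ p := ts_sub_of_not (hPs (l - 1) (by omega) b hb) hba
          have h2 := Finset.card_le_card h1
          have h3 := hc.card (k - 1) (by omega) (by omega) p hp
          have h4 := hP.card (l - 1) (by omega) b hb
          omega
        · obtain ⟨q, hq, rfl⟩ := List.mem_map.mp hb
          exact hc.cross (k - 1) (l - 1) (by omega) (by omega) (by omega) p hp q hq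
            (ts_sub_of_insert (hcs (l - 1) (by omega) (by omega) q hq) hba)
  have hinv : ∀ k, 4 ≤ k → k + 1 ≤ m + 1 → ∀ b ∈ topC m s X Y c k, ¬ b ⊆ T (m + 1) k := by
    intro k hk hkm b hb hbT
    rw [ts_T hk (by omega)] at hbT
    rw [hCk k hk, List.mem_append] at hb
    rcases hb with hb | hb
    · have h1 : b ⊆ T m (k - 1) := ts_sub_of_not (hPs (k - 1) (by omega) b hb) hbT
      have h2 := hP.card (k - 1) (by omega) b hb
      have h3 := ts_cardT (m := m) (j := k - 1) (by omega) (by omega)
      have hbe : b = T m (k - 1) := Finset.eq_of_subset_of_card_le h1 (by omega)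
      obtain ⟨j, hj⟩ : ∃ j, j = k - 1 := ⟨_, rfl⟩
      rw [← hj] at hb hbe
      have hj3 : 3 ≤ j := by omega
      have hjm : j ≤ m := by omega
      rw [pg, List.mem_append] at hb
      rcases (show j = 3 ∨ j = 4 ∨ 5 ≤ j by omega) with h | h | h
      · subst h
        have hbe' : b = {1, 2, 3} := by
          rw [hbe]; ext x
          simp only [T, Finset.mem_union, Finset.mem_insert, Finset.mem_singleton, Finset.mem_Icc]
          omega
        rcases hb with hb | hb
        · exact hX.cross 2 3 (by omega) _ hXt b hb (by rw [hbe'])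
        · obtain ⟨q, hq, hqb⟩ := List.mem_map.mp hb
          have : m - 1 ∈ b := by rw [← hqb]; exact Finset.mem_insert_self _ _
          rw [hbe'] at this
          simp only [Finset.mem_insert, Finset.mem_singleton] at this
          omega
      · subst h
        have hbe' : b = {1, 2, 3, m} := by
          rw [hbe]; ext x
          simp only [T, Finset.mem_union, Finset.mem_insert, Finset.mem_singleton, Finset.mem_Icc]
          omega
        rcases hb with hb | hb
        · exact hX.cross 3 4 (by omega) _ hXt' b hb (by rw [hbe'])
        · obtain ⟨q, hq, hqb⟩ := List.mem_map.mp hb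
          have : m - 1 ∈ b := by rw [← hqb]; exact Finset.mem_insert_self _ _
          rw [hbe'] at this
          simp only [Finset.mem_insert, Finset.mem_singleton] at this
          omega
      · rcases hb with hb | hb
        · have : m - 1 ∈ b := by
            rw [hbe]
            simp only [T, Finset.mem_union, Finset.mem_insert, Finset.mem_singleton, Finset.mem_Icc]
            omega
          have := hXs j b hb _ this
          omega
        · obtain ⟨q, hq, hqb⟩ := List.mem_map.mp hb
          refine hY.cross (j - 2) (j - 1) (by omega) _ (hYT j h hjm) q hq ?_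
          intro x hx
          have hx1 : x ∈ b := by rw [← hqb]; exact Finset.mem_insert_of_mem hx
          have hx2 := hYs _ q hq x hx
          rw [hbe] at hx1
          simp only [T, Finset.mem_union, Finset.mem_insert, Finset.mem_singleton, Finset.mem_Icc] at hx1 ⊢
          omega
    · obtain ⟨q, hq, rfl⟩ := List.mem_map.mp hb
      exact hc.inv (k - 1) (by omega) (by omega) q hq
        (ts_sub_of_insert (hcs (k - 1) (by omega) (by omega) q hq) hbT)
  refine ⟨?_, ?_, ?_, ?_, hok, hcard, hsub, hhead, ?_, hlast, hFcard, hFsub, hFnest, hcross, hinv, ?_⟩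
  · rw [hC1]
    have h1 : ((s ++ [m - 1]) ++ [m + 1]).take 1 = s.take 1 := by rw [hss]; rfl
    rw [h1]
    have h2 : m + 1 - 2 = m - 1 := by omega
    rw [h2]
  · rw [hC2, List.length_append, hX.len 1, hslen]
    simp only [List.length_cons, List.length_nil, Nat.choose_one_right]
    omega
  · rw [hC3, hL.len, hX.len 2, hslen]
    obtain ⟨i, rfl⟩ : ∃ i, m = i + 2 := ⟨m - 2, by omega⟩
    have h1 : i + 2 - 1 - 1 = i := by omega
    have h2 : i + 2 + 1 - 1 = i + 2 := by omega
    rw [h1, h2]
    have h3 : (i + 2).choose 2 = (i + 1).choose 1 + (i + 1).choose 2 := Nat.choose_succ_succ _ _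
    have h4 : (i + 1).choose 2 = i.choose 1 + i.choose 2 := Nat.choose_succ_succ _ _
    rw [h3, h4, Nat.choose_one_right, Nat.choose_one_right]
    omega
  · intro k hk hkm
    rw [hCk k hk, List.length_append, List.length_map, hP.len (k - 1) (by omega)]
    have h1 := hc.len (k - 1) (by omega) (by omega)
    obtain ⟨i, rfl⟩ : ∃ i, m = i + 1 := ⟨m - 1, by omega⟩
    obtain ⟨j, rfl⟩ : ∃ j, k = j + 2 := ⟨k - 2, by omega⟩
    have e1 : i + 1 - 1 = i := by omega
    have e2 : j + 2 - 1 = j + 1 := by omega
    have e3 : i + 1 + 1 - 1 = i + 1 := by omega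
    have e4 : j + 1 - 1 = j := by omega
    rw [e2, e1, e4] at h1
    rw [e1, e2, e3]
    have h3 : (i + 1).choose (j + 1) = i.choose j + i.choose (j + 1) := Nat.choose_succ_succ _ _
    rw [h3]
    omega
  · rw [hC2, List.getLast?_append]
    have h2 : m + 1 - 2 = m - 1 := by omega
    rw [h2]
    rfl
  · have e : m + 1 - 1 = m := by omega
    rw [e]
    apply rev_ok (m + 1) (by omega) _ (hok m (by omega) (by omega)) (hsub m (by omega) (by omega))
    · intro a ha
      have := hcard m (by omega) (by omega) a ha
      omega
    · intro a ha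
      rw [hhead m (by omega) (by omega)] at ha
      simp only [Option.mem_def, Option.some.injEq] at ha
      rw [← ha]
      have htk : ((s ++ [m - 1]) ++ [m + 1]).take m = s ++ [m - 1] := by
        apply List.take_left'
        simp only [List.length_append, List.length_cons, List.length_nil, hslen]; omega
      rw [htk, List.toFinset_card_of_nodup]
      · simp only [List.length_append, List.length_cons, List.length_nil, hslen]; omega
      · rw [List.nodup_append]
        refine ⟨hX.nd, List.nodup_singleton _, ?_⟩
        intro x hx y hy hxy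
        have := List.mem_singleton.mp hy
        have := (hmem x).mp hx
        omega
    · intro a ha
      rw [hlast m (by omega) (by omega)] at ha
      simp only [Option.mem_def, Option.some.injEq] at ha
      rw [← ha]
      rw [hFcard m (by omega) (by omega)]
      rfl


end Pool.Agent.Helper722.FX
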