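import Mathlib
import Pool.Agent.Helper722.FX.CS
import Pool.Agent.Helper722.FY.Step2
import Pool.Agent.Helper722.FY.Top2

set_option autoImplicit false

namespace Pool.Agent.Helper722.FX

open Pool.Agent.Helper605.FT Pool.Agent.Helper732.FT2

theorem c_sideF (hf : Flex) (hF : FlexQ) (hbase : ∃ F c, BG 12 F c) (n : ℕ) (hn : 13 ≤ n) (σ : List ℕ)
    (hσ : (σ ++ [2, 3, n - 3]).Perm (sX (n - 1))) (hσ0 : σ ≠ []) (h1 : σ.getLast? ≠ some 1) :
    ∃ F c, CSideF n (σ ++ [2, 3, n - 3, n - 2, n]) F c := by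
  have hB : ∀ m, 12 ≤ m → ∃ F c, BG m F c := by
    intro m hm
    induction m, hm using Nat.le_induction with
    | base => exact hbase
    | succ m hm ih =>
      obtain ⟨F, c, hc⟩ := ih
      obtain ⟨X, hX, hX1, hX2⟩ := XX_ex hF m hm
      obtain ⟨Y, hY, hY1, hYT⟩ := YY_ex hf hF m hm
      have hP := pg_props m hm _ (List.Perm.refl _) X Y hX hY
      have hne : (X 2).drop 2 ≠ [] := by
        intro h
        have h3 : (X 2).length ≤ 2 := by
          have := congrArg List.length h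
          simp at this; omega
        have h4 := congrArg List.length hX2
        simp at h4; omega
      have hL := lowP m hm _ (List.Perm.refl _) X hX ((X 2).drop 2) (List.drop_suffix _ _) hne
        (restP m hm)
      exact ⟨_, _, BG_step m hm F c hc X Y hX hX1 hX2 hY hY1 hYT hL hP⟩
  obtain ⟨m, rfl⟩ : ∃ m, n = m + 1 := ⟨n - 1, by omega⟩
  have hm : 12 ≤ m := by omega
  rw [show m + 1 - 3 = m - 2 by omega, show m + 1 - 1 = m by omega] at hσ
  rw [show m + 1 - 3 = m - 2 by omega, show m + 1 - 2 = m - 1 by omega]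
  obtain ⟨F, c, hc⟩ := hB m hm
  obtain ⟨X, hX, hX1, hXt, hXt'⟩ := topX_ex hf hF m hm σ hσ h1
  obtain ⟨Y, hY, hY1, hYT⟩ := YY_ex hf hF m hm
  have hP := pg_props m hm _ hσ X Y hX hY
  have hne : X 2 ≠ [] := by
    intro h; rw [h] at hXt; simp at hXt
  have hL := lowP m hm _ hσ X hX (X 2) (List.suffix_refl _) hne (restP m hm)
  exact ⟨_, _, top_stepF m hm F c hc σ hσ hσ0 X Y hX hX1 hXt hXt' hY hY1 hYT hL hP⟩


theorem c_sideF_final (hbase : ∃ F c, BG 12 F c) (n : ℕ) (hn : 13 ≤ n) (σ : List ℕ)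
    (hσ : (σ ++ [2, 3, n - 3]).Perm (sX (n - 1))) (hσ0 : σ ≠ []) (h1 : σ.getLast? ≠ some 1) :
    ∃ F c, CSideF n (σ ++ [2, 3, n - 3, n - 2, n]) F c :=
  c_sideF flex_all flexQ_all hbase n hn σ hσ hσ0 h1

end Pool.Agent.Helper722.FX
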